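import Pool.Agent.H29.LD.A2

set_option autoImplicit false

open NumberField Filter Topology

namespace Pool.Agent.H29.LD

section

variable {p : ℕ} {K : Type} [Field K] [NumberField K]

/-- irrationality of `θ` with `θ ^ 2 = p` -/
theorem irr' (hp : p.Prime) (θ : K) (hθ : θ ^ 2 = p) (a b : ℚ)
    (h : (a : K) + b * θ = 0) : a = 0 ∧ b = 0 := by
  by_cases hb : b = 0
  · subst hb
    simp at h
    exact ⟨h, rfl⟩
  · exfalso
    have hb' : (b : K) ≠ 0 := by exact_mod_cast hb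
    have h1 : θ = ((-a / b : ℚ) : K) := by
      push_cast
      field_simp
      linear_combination h
    have h2 : ((-a / b : ℚ)) ^ 2 = (p : ℚ) := by
      have : (((-a / b : ℚ) ^ 2 : ℚ) : K) = ((p : ℚ) : K) := by
        push_cast
        rw [← hθ, h1]
        push_cast
        ring
      exact_mod_cast this
    have h3 : IsSquare (p : ℚ) := ⟨-a / b, by rw [← h2, pow_two]⟩
    rw [Rat.isSquare_natCast_iff] at h3
    exact hp.prime.not_isSquare h3

/-- the rational basis `1, θ` -/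
theorem exists_basis (hp : p.Prime) (θ : K) (hθ : θ ^ 2 = p)
    (hK : ∀ x : K, ∃ a b : ℚ, x = a + b * θ) :
    ∃ b : Module.Basis (Fin 2) ℚ K, b 0 = 1 ∧ b 1 = θ := by
  have hli : LinearIndependent ℚ ![(1 : K), θ] := by
    rw [LinearIndependent.pair_iff]
    intro s t h
    apply irr' hp θ hθ
    simpa [Algebra.smul_def] using h
  have hsp : ⊤ ≤ Submodule.span ℚ (Set.range ![(1 : K), θ]) := by
    intro x _
    obtain ⟨a, b, rfl⟩ := hK x
    have h1 : (1 : K) ∈ Submodule.span ℚ (Set.range ![(1 : K), θ]) :=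
      Submodule.subset_span ⟨0, rfl⟩
    have h2 : θ ∈ Submodule.span ℚ (Set.range ![(1 : K), θ]) :=
      Submodule.subset_span ⟨1, rfl⟩
    have := Submodule.add_mem _ (Submodule.smul_mem _ a h1) (Submodule.smul_mem _ b h2)
    simpa [Algebra.smul_def] using this
  exact ⟨Module.Basis.mk hli hsp, by simp, by simp⟩

theorem trace_norm (hp : p.Prime) (θ : K) (hθ : θ ^ 2 = p)
    (hK : ∀ x : K, ∃ a b : ℚ, x = a + b * θ) (a c : ℚ) :
    Algebra.trace ℚ K ((a : K) + c * θ) = 2 * a ∧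
      Algebra.norm ℚ ((a : K) + c * θ) = a ^ 2 - p * c ^ 2 := by
  obtain ⟨b, hb0, hb1⟩ := exists_basis hp θ hθ hK
  have hrepr : ∀ c d : ℚ, ∀ i : Fin 2, b.repr ((c : K) + d * θ) i = ![c, d] i := by
    intro c d i
    have : ((c : K) + d * θ) = ∑ j, (![c, d] j) • b j := by
      rw [Fin.sum_univ_two, hb0, hb1]
      simp [Algebra.smul_def]
    rw [this, Module.Basis.repr_sum_self]
  have hmul : ((a : K) + c * θ) * θ = ((c * p : ℚ) : K) + (a : K) * θ := by
    push_cast
    linear_combination (c : K) * hθ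
  constructor
  · rw [Algebra.trace_eq_matrix_trace b, Matrix.trace_fin_two, Algebra.leftMulMatrix_eq_repr_mul,
      Algebra.leftMulMatrix_eq_repr_mul, hb0, hb1, mul_one, hrepr, hmul, hrepr]
    simp
    ring
  · rw [Algebra.norm_eq_matrix_det b, Matrix.det_fin_two]
    simp only [Algebra.leftMulMatrix_eq_repr_mul]
    rw [hb0, hb1, mul_one, hmul]
    simp only [hrepr]
    simp
    ring

theorem int_of_sq (hp : p.Prime) (c : ℚ) (n : ℤ) (h : (p : ℚ) * c ^ 2 = n) : ∃ m : ℤ, c = m := by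
  have h1 : IsIntegral ℤ ((p : ℚ) * c) := by
    refine IsIntegral.of_pow (n := 2) (by norm_num) ?_
    have : ((p : ℚ) * c) ^ 2 = ((p * n : ℤ) : ℚ) := by
      push_cast
      rw [← h]; ring
    rw [this]
    exact isIntegral_algebraMap
  obtain ⟨k, hk⟩ := IsIntegrallyClosed.isIntegral_iff.mp h1
  have hk' : (k : ℚ) = p * c := hk
  have h2 : (k : ℤ) ^ 2 = p * n := by
    have : ((k ^ 2 : ℤ) : ℚ) = ((p * n : ℤ) : ℚ) := by
      push_cast
      rw [hk', ← h]; ring
    exact_mod_cast this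
  have h3 : (p : ℤ) ∣ k := (Nat.prime_iff_prime_int.mp hp).dvd_of_dvd_pow (Dvd.intro _ h2.symm)
  obtain ⟨m, hm⟩ := h3
  refine ⟨m, ?_⟩
  have hp0 : (p : ℚ) ≠ 0 := by exact_mod_cast hp.ne_zero
  apply mul_left_cancel₀ hp0
  rw [← hk', hm]
  push_cast
  rfl

end

/-- MODULE A1: integral basis `1, ω`. -/
theorem exists_omega (p : ℕ) [Fact p.Prime] (hp : p % 4 = 1) (K : Type) [Field K] [NumberField K]
    (θ : K) (hθ : θ ^ 2 = p) (hK : ∀ x : K, ∃ a b : ℚ, x = a + b * θ) :
    ∃ ω : 𝓞 K, (2 * (ω : K) = 1 + θ) ∧ ω ^ 2 = ω + (((p - 1) / 4 : ℕ) : 𝓞 K) ∧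
      ∀ x : 𝓞 K, ∃ a b : ℤ, x = a + b * ω := by
  have hpp : p.Prime := Fact.out
  obtain ⟨q, hq⟩ : ∃ q : ℕ, p = 4 * q + 1 := ⟨p / 4, by omega⟩
  have hq' : (p - 1) / 4 = q := by omega
  have hw : ((1 + θ) / 2) ^ 2 = (1 + θ) / 2 + (q : K) := by
    have : (p : K) = 4 * q + 1 := by rw [hq]; push_cast; ring
    rw [this] at hθ
    field_simp
    linear_combination hθ
  have hint : IsIntegral ℤ ((1 + θ) / 2) := by
    refine ⟨Polynomial.X ^ 2 - (Polynomial.X + Polynomial.C (q : ℤ)), ?_, ?_⟩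
    · apply Polynomial.monic_X_pow_sub
      rw [Polynomial.degree_X_add_C]; norm_num
    · simp only [Polynomial.eval₂_sub, Polynomial.eval₂_add, Polynomial.eval₂_X_pow, Polynomial.eval₂_X,
        Polynomial.eval₂_C, hw]
      simp
  let ω : 𝓞 K := ⟨(1 + θ) / 2, hint⟩
  have hωK : algebraMap (𝓞 K) K ω = (1 + θ) / 2 := rfl
  have hωK' : (ω : K) = (1 + θ) / 2 := rfl
  refine ⟨ω, by rw [hωK']; ring, ?_, ?_⟩
  · apply FaithfulSMul.algebraMap_injective (𝓞 K) K
    rw [hq', map_pow, map_add, map_natCast, hωK, hw]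
  · intro x
    obtain ⟨a, c, hx⟩ := hK (x : K)
    have hxint : IsIntegral ℤ (x : K) := RingOfIntegers.isIntegral_coe x
    obtain ⟨htr, hnm⟩ := trace_norm hpp θ hθ hK a c
    have h1 : IsIntegral ℤ (Algebra.trace ℚ K (x : K)) := Algebra.isIntegral_trace hxint
    have h2 : IsIntegral ℤ (Algebra.norm ℚ (x : K)) := Algebra.isIntegral_norm ℚ hxint
    rw [hx, htr] at h1
    rw [hx, hnm] at h2
    obtain ⟨m, hm⟩ := IsIntegrallyClosed.isIntegral_iff.mp h1
    obtain ⟨n, hn⟩ := IsIntegrallyClosed.isIntegral_iff.mp h2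
    have hm' : (m : ℚ) = 2 * a := hm
    have hn' : (n : ℚ) = a ^ 2 - p * c ^ 2 := hn
    obtain ⟨l, hl⟩ := int_of_sq hpp (2 * c) (m ^ 2 - 4 * n) (by
      push_cast
      rw [hm', hn']; ring)
    have h3 : m ^ 2 - p * l ^ 2 = 4 * n := by
      have : ((m ^ 2 - p * l ^ 2 : ℤ) : ℚ) = ((4 * n : ℤ) : ℚ) := by
        push_cast
        rw [← hl, hm', hn']; ring
      exact_mod_cast this
    have h4 : (m - l) % 2 = 0 := by
      rw [hq] at h3
      push_cast at h3
      have h5 : (m - l) * (m + l) = 4 * (n + q * l ^ 2) := by linear_combination h3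
      rcases Int.emod_two_eq_zero_or_one (m - l) with h6 | h6
      · exact h6
      · exfalso
        have h7 : (m + l) % 2 = 1 := by omega
        have h8 : ((m - l) * (m + l)) % 2 = 1 := by
          rw [Int.mul_emod, h6, h7]; rfl
        rw [h5] at h8
        omega
    obtain ⟨t, ht⟩ : ∃ t : ℤ, m - l = 2 * t := ⟨(m - l) / 2, by omega⟩
    refine ⟨t, l, ?_⟩
    apply FaithfulSMul.algebraMap_injective (𝓞 K) K
    rw [map_add, map_mul, map_intCast, map_intCast, hωK]
    change (x : K) = _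
    rw [hx]
    have e1 : (a : K) = (m : K) / 2 := by
      have : (((m : ℚ)) : K) = ((2 * a : ℚ) : K) := by rw [hm']
      push_cast at this
      rw [this]; ring
    have e2 : (c : K) = (l : K) / 2 := by
      have : (((2 * c : ℚ)) : K) = ((l : ℚ) : K) := by rw [hl]
      push_cast at this
      rw [← this]; ring
    have e3 : (m : K) = l + 2 * t := by
      have : ((m - l : ℤ) : K) = ((2 * t : ℤ) : K) := by rw [ht]
      push_cast at this
      linear_combination this
    rw [e1, e2, e3]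
    ring

/-- MODULE A2: the residue. -/
theorem exists_unit_residue (p : ℕ) [Fact p.Prime] (hp : p % 4 = 1) (K : Type) [Field K]
    [NumberField K] (σ : K →+* ℝ) (θ : K) (hθ : σ θ = √p)
    (hK : ∀ x : K, ∃ a b : ℚ, x = a + b * θ) :
    ∃ ε : ℝ, IsLeast {x : ℝ | 1 < x ∧ ∃ u : (𝓞 K)ˣ, σ (u : K) = x} ε ∧
      dedekindZeta_residue K = 2 * classNumber K * Real.log ε / √p := by
  obtain ⟨ω, h1, h2, h3⟩ := exists_omega p hp K θ (theta_sq σ θ hθ) hK
  exact exists_unit_residue_of p hp K σ θ hθ hK ω h1 h2 h3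

end Pool.Agent.H29.LD
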