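import Mathlib

/-! Module B: the number of ideals of norm `n` in the ring of integers of `ℚ(√p)`. -/

open NumberField

namespace Pool.Agent.H29.LD.B

variable {K : Type} [Field K] [NumberField K]

theorem absNorm_nat (m : ℕ) :
    Ideal.absNorm (Ideal.span {(m : 𝓞 K)}) = m ^ Module.finrank ℤ (𝓞 K) := by
  rw [Ideal.absNorm_span_singleton]
  have : ((m : ℕ) : 𝓞 K) = algebraMap ℤ (𝓞 K) (m : ℤ) := by simp
  rw [this, Algebra.norm_algebraMap, Int.natAbs_pow, Int.natAbs_natCast]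

theorem absNorm_sup_dvd (A : Ideal (𝓞 K)) (m : ℕ) :
    Ideal.absNorm (A ⊔ Ideal.span {(m : 𝓞 K)}) ∣ m ^ Module.finrank ℤ (𝓞 K) := by
  rw [← absNorm_nat (K := K)]
  exact Ideal.absNorm_dvd_absNorm_of_le le_sup_right

omit [NumberField K] in
theorem sup_span_eq_top (m n : ℕ) (h : Nat.Coprime m n) :
    Ideal.span {(m : 𝓞 K)} ⊔ Ideal.span {(n : 𝓞 K)} = ⊤ := by
  rw [Ideal.eq_top_iff_one, Submodule.mem_sup]
  have := Nat.gcd_eq_gcd_ab m n
  rw [h] at this
  refine ⟨(m : 𝓞 K) * (m.gcdA n : ℤ), Ideal.mem_span_singleton.2 (Dvd.intro _ rfl),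
    (n : 𝓞 K) * (m.gcdB n : ℤ), Ideal.mem_span_singleton.2 (Dvd.intro _ rfl), ?_⟩
  have h2 := congrArg (Int.cast : ℤ → 𝓞 K) this
  push_cast at h2
  rw [← h2]

omit [NumberField K] in
theorem sup_mul_sup (A : Ideal (𝓞 K)) (m n : ℕ) (h : Nat.Coprime m n)
    (hA : ((m * n : ℕ) : 𝓞 K) ∈ A) :
    (A ⊔ Ideal.span {(m : 𝓞 K)}) * (A ⊔ Ideal.span {(n : 𝓞 K)}) = A := by
  apply le_antisymm
  · rw [Ideal.sup_mul, Ideal.mul_sup, Ideal.mul_sup, Ideal.span_singleton_mul_span_singleton]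
    refine sup_le (sup_le Ideal.mul_le_left Ideal.mul_le_left) (sup_le Ideal.mul_le_right ?_)
    rw [Ideal.span_singleton_le_iff_mem]
    exact_mod_cast hA
  · calc A = A * (Ideal.span {(m : 𝓞 K)} ⊔ Ideal.span {(n : 𝓞 K)}) := by
            rw [sup_span_eq_top m n h, Ideal.mul_top]
      _ ≤ _ := by
          rw [Ideal.mul_sup]
          refine sup_le ?_ ?_
          · rw [mul_comm]
            exact Ideal.mul_mono le_sup_right le_sup_left
          · exact Ideal.mul_mono le_sup_left le_sup_right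

theorem absNorm_mem' {I : Ideal (𝓞 K)} {n : ℕ} (h : Ideal.absNorm I = n) : (n : 𝓞 K) ∈ I := by
  rw [← h]; exact Ideal.absNorm_mem I

theorem sup_eq_of (I J : Ideal (𝓞 K)) (m n : ℕ) (h : Nat.Coprime m n)
    (hI : Ideal.absNorm I = m) (hJ : Ideal.absNorm J = n) :
    I * J ⊔ Ideal.span {(m : 𝓞 K)} = I := by
  apply le_antisymm
  · refine sup_le Ideal.mul_le_left ?_
    rw [Ideal.span_singleton_le_iff_mem]
    exact absNorm_mem' hI
  · have h1 : J ⊔ Ideal.span {(m : 𝓞 K)} = ⊤ := by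
      rw [eq_top_iff, ← sup_span_eq_top (K := K) m n h]
      refine sup_le le_sup_right ?_
      refine le_trans ?_ le_sup_left
      rw [Ideal.span_singleton_le_iff_mem]
      exact absNorm_mem' hJ
    calc I = I * (J ⊔ Ideal.span {(m : 𝓞 K)}) := by rw [h1, Ideal.mul_top]
      _ ≤ _ := by
          rw [Ideal.mul_sup]
          exact sup_le_sup le_rfl Ideal.mul_le_right

theorem card_mul (m n : ℕ) (h : Nat.Coprime m n) (hm : m ≠ 0) (hn : n ≠ 0) :
    Nat.card {I : Ideal (𝓞 K) // Ideal.absNorm I = m * n} =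
      Nat.card {I : Ideal (𝓞 K) // Ideal.absNorm I = m} *
        Nat.card {I : Ideal (𝓞 K) // Ideal.absNorm I = n} := by
  rw [← Nat.card_prod]
  symm
  refine Nat.card_congr (Equiv.ofBijective (fun x => ⟨x.1.1 * x.2.1, by
    rw [map_mul, x.1.2, x.2.2]⟩) ⟨?_, ?_⟩)
  · rintro ⟨⟨I, hI⟩, ⟨J, hJ⟩⟩ ⟨⟨I', hI'⟩, ⟨J', hJ'⟩⟩ he
    have he' : I * J = I' * J' := congrArg Subtype.val he
    have h1 : I = I' := by
      rw [← sup_eq_of I J m n h hI hJ, he', sup_eq_of I' J' m n h hI' hJ']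
    have h2 : J = J' := by
      rw [← sup_eq_of J I n m h.symm hJ hI, ← sup_eq_of J' I' n m h.symm hJ' hI', mul_comm J,
        mul_comm J', he']
    subst h1; subst h2; rfl
  · rintro ⟨A, hA⟩
    have hp := sup_mul_sup A m n h (absNorm_mem' hA)
    have h1 : Ideal.absNorm (A ⊔ Ideal.span {(m : 𝓞 K)}) *
        Ideal.absNorm (A ⊔ Ideal.span {(n : 𝓞 K)}) = m * n := by
      rw [← map_mul, hp, hA]
    have d1 := absNorm_sup_dvd A m
    have d2 := absNorm_sup_dvd A n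
    have c1 : Nat.Coprime (Ideal.absNorm (A ⊔ Ideal.span {(m : 𝓞 K)})) n :=
      Nat.Coprime.coprime_dvd_left d1 (Nat.Coprime.pow_left _ h)
    have c2 : Nat.Coprime (Ideal.absNorm (A ⊔ Ideal.span {(n : 𝓞 K)})) m :=
      Nat.Coprime.coprime_dvd_left d2 (Nat.Coprime.pow_left _ h.symm)
    have e1 : Ideal.absNorm (A ⊔ Ideal.span {(m : 𝓞 K)}) ∣ m :=
      c1.dvd_of_dvd_mul_right (h1 ▸ Dvd.intro _ rfl)
    have e2 : Ideal.absNorm (A ⊔ Ideal.span {(n : 𝓞 K)}) ∣ n :=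
      c2.dvd_of_dvd_mul_left (h1 ▸ Dvd.intro_left _ rfl)
    have l1 := Nat.le_of_dvd (Nat.pos_of_ne_zero hm) e1
    have l2 := Nat.le_of_dvd (Nat.pos_of_ne_zero hn) e2
    have f1 : Ideal.absNorm (A ⊔ Ideal.span {(m : 𝓞 K)}) = m := by
      by_contra hne
      have : Ideal.absNorm (A ⊔ Ideal.span {(m : 𝓞 K)}) < m := lt_of_le_of_ne l1 hne
      have := Nat.mul_lt_mul_of_lt_of_le this l2 (Nat.pos_of_ne_zero hn)
      omega
    have f2 : Ideal.absNorm (A ⊔ Ideal.span {(n : 𝓞 K)}) = n := by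
      rw [f1] at h1
      exact Nat.eq_of_mul_eq_mul_left (Nat.pos_of_ne_zero hm) h1
    exact ⟨⟨⟨_, f1⟩, ⟨_, f2⟩⟩, Subtype.ext hp⟩


/-! ### Prime powers -/

theorem dvd_pow_mul_pow (P Q : Ideal (𝓞 K)) (hPp : Prime P) (hQp : Prime Q) (k : ℕ)
    (I : Ideal (𝓞 K)) (h : I ∣ P ^ k * Q ^ k) : ∃ i j : ℕ, I = P ^ i * Q ^ j := by
  obtain ⟨A, B, hA, hB, rfl⟩ := exists_dvd_and_dvd_of_dvd_mul h
  obtain ⟨i, -, hi⟩ := (dvd_prime_pow hPp k).1 hA
  obtain ⟨j, -, hj⟩ := (dvd_prime_pow hQp k).1 hB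
  rw [associated_iff_eq] at hi hj
  exact ⟨i, j, by rw [hi, hj]⟩

theorem eq_of_dvd_of_norm {P Q : Ideal (𝓞 K)} (h : P ∣ Q)
    (hN : Ideal.absNorm P = Ideal.absNorm Q) (h0 : Ideal.absNorm P ≠ 0) : P = Q := by
  obtain ⟨R, rfl⟩ := h
  rw [map_mul] at hN
  have : Ideal.absNorm R = 1 := by
    have := Nat.eq_of_mul_eq_mul_left (Nat.pos_of_ne_zero h0) (hN.symm.trans (mul_one _).symm)
    exact this
  rw [Ideal.absNorm_eq_one_iff] at this
  rw [this, Ideal.mul_top]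

theorem inj_split (q : ℕ) (hq : q.Prime) (P Q : Ideal (𝓞 K)) (hP : Ideal.absNorm P = q)
    (hQ : Ideal.absNorm Q = q) (hPp : Prime P) (hne : P ≠ Q) (k i j : ℕ) (hij : i < j)
    (h : P ^ i * Q ^ (k - i) = P ^ j * Q ^ (k - j)) : False := by
  have h1 : P ^ j = P ^ i * P ^ (j - i) := by rw [← pow_add]; congr 1; omega
  rw [h1, mul_assoc] at h
  have h2 := mul_left_cancel₀ (pow_ne_zero i hPp.ne_zero) h
  have h3 : P ∣ Q ^ (k - i) := by
    rw [h2]
    exact Dvd.dvd.mul_right (dvd_pow_self P (by omega)) _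
  have h4 : P ∣ Q := hPp.dvd_of_dvd_pow h3
  exact hne (eq_of_dvd_of_norm h4 (by rw [hP, hQ]) (by rw [hP]; exact hq.ne_zero))

theorem card_split (q : ℕ) (hq : q.Prime) (P Q : Ideal (𝓞 K)) (hP : Ideal.absNorm P = q)
    (hQ : Ideal.absNorm Q = q) (hPQ : P * Q = Ideal.span {(q : 𝓞 K)}) (hne : P ≠ Q) (k : ℕ) :
    Nat.card {I : Ideal (𝓞 K) // Ideal.absNorm I = q ^ k} = k + 1 := by
  have hPp : Prime P := UniqueFactorizationMonoid.irreducible_iff_prime.mp
    (Ideal.irreducible_of_irreducible_absNorm (by rw [hP]; exact hq))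
  have hQp : Prime Q := UniqueFactorizationMonoid.irreducible_iff_prime.mp
    (Ideal.irreducible_of_irreducible_absNorm (by rw [hQ]; exact hq))
  have hf : ∀ i : Fin (k + 1), Ideal.absNorm (P ^ (i : ℕ) * Q ^ (k - i)) = q ^ k := by
    intro i
    rw [map_mul, map_pow, map_pow, hP, hQ, ← pow_add]
    congr 1
    have := i.2
    omega
  have : k + 1 = Nat.card (Fin (k + 1)) := by simp
  rw [this]
  symm
  refine Nat.card_congr (Equiv.ofBijective (fun i => ⟨P ^ (i : ℕ) * Q ^ (k - i), hf i⟩) ⟨?_, ?_⟩)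
  · intro i j he
    have he' : P ^ (i : ℕ) * Q ^ (k - i) = P ^ (j : ℕ) * Q ^ (k - j) := congrArg Subtype.val he
    rcases lt_trichotomy (i : ℕ) (j : ℕ) with hlt | heq | hgt
    · exact (inj_split q hq P Q hP hQ hPp hne k i j hlt he').elim
    · exact Fin.ext heq
    · exact (inj_split q hq P Q hP hQ hPp hne k j i hgt he'.symm).elim
  · rintro ⟨I, hI⟩
    have hd : I ∣ P ^ k * Q ^ k := by
      rw [← mul_pow, hPQ, Ideal.span_singleton_pow, Ideal.dvd_iff_le,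
        Ideal.span_singleton_le_iff_mem]
      exact_mod_cast absNorm_mem' hI
    obtain ⟨i, j, rfl⟩ := dvd_pow_mul_pow P Q hPp hQp k I hd
    rw [map_mul, map_pow, map_pow, hP, hQ, ← pow_add] at hI
    have hij : i + j = k := Nat.pow_right_injective hq.two_le hI
    exact ⟨⟨i, by omega⟩, Subtype.ext (by simp only; congr 2; omega)⟩

theorem card_ram (q : ℕ) (hq : q.Prime) (P : Ideal (𝓞 K)) (hP : Ideal.absNorm P = q)
    (hPQ : P * P = Ideal.span {(q : 𝓞 K)}) (k : ℕ) :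
    Nat.card {I : Ideal (𝓞 K) // Ideal.absNorm I = q ^ k} = 1 := by
  have hPp : Prime P := UniqueFactorizationMonoid.irreducible_iff_prime.mp
    (Ideal.irreducible_of_irreducible_absNorm (by rw [hP]; exact hq))
  rw [Nat.card_eq_one_iff_unique]
  refine ⟨⟨?_⟩, ⟨⟨P ^ k, by rw [map_pow, hP]⟩⟩⟩
  have key : ∀ I : Ideal (𝓞 K), Ideal.absNorm I = q ^ k → I = P ^ k := by
    intro I hI
    have hd : I ∣ P ^ k * P ^ k := by
      rw [← mul_pow, hPQ, Ideal.span_singleton_pow, Ideal.dvd_iff_le,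
        Ideal.span_singleton_le_iff_mem]
      exact_mod_cast absNorm_mem' hI
    obtain ⟨i, j, rfl⟩ := dvd_pow_mul_pow P P hPp hPp k I hd
    rw [← pow_add] at hI ⊢
    rw [map_pow, hP] at hI
    rw [Nat.pow_right_injective hq.two_le hI]
  rintro ⟨I, hI⟩ ⟨J, hJ⟩
  exact Subtype.ext ((key I hI).trans (key J hJ).symm)

theorem card_inert (q : ℕ) (hq : q.Prime) (hP : Prime (Ideal.span {(q : 𝓞 K)}))
    (hfin : Module.finrank ℤ (𝓞 K) = 2) (k : ℕ) :
    Nat.card {I : Ideal (𝓞 K) // Ideal.absNorm I = q ^ k} = if Even k then 1 else 0 := by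
  have key : ∀ I : Ideal (𝓞 K), Ideal.absNorm I = q ^ k →
      ∃ i, I = Ideal.span {(q : 𝓞 K)} ^ i ∧ 2 * i = k := by
    intro I hI
    have hd : I ∣ Ideal.span {(q : 𝓞 K)} ^ k := by
      rw [Ideal.span_singleton_pow, Ideal.dvd_iff_le, Ideal.span_singleton_le_iff_mem]
      exact_mod_cast absNorm_mem' hI
    obtain ⟨i, -, hi⟩ := (dvd_prime_pow hP k).1 hd
    rw [associated_iff_eq] at hi
    refine ⟨i, hi, ?_⟩
    rw [hi, map_pow, absNorm_nat, hfin, ← pow_mul] at hI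
    exact Nat.pow_right_injective hq.two_le hI
  split_ifs with hk
  · rw [Nat.card_eq_one_iff_unique]
    obtain ⟨m, hm⟩ := hk
    refine ⟨⟨?_⟩, ⟨⟨Ideal.span {(q : 𝓞 K)} ^ m, by
      rw [map_pow, absNorm_nat, hfin, ← pow_mul, hm]; congr 1; omega⟩⟩⟩
    rintro ⟨I, hI⟩ ⟨J, hJ⟩
    obtain ⟨i, hi, hik⟩ := key I hI
    obtain ⟨j, hj, hjk⟩ := key J hJ
    refine Subtype.ext ?_
    simp only
    rw [hi, hj]
    congr 1
    omega
  · rw [Nat.card_eq_zero]
    left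
    refine ⟨?_⟩
    rintro ⟨I, hI⟩
    obtain ⟨i, hi, hik⟩ := key I hI
    exact hk ⟨i, by omega⟩

/-! ### The arithmetic of `ℤ[ω]` -/

theorem lin_indep (p c : ℕ) (hp : p.Prime) (hpc : p = 4 * c + 1) (ω : 𝓞 K)
    (hω : ω ^ 2 = ω + (c : 𝓞 K)) (a b : ℤ) (h : (a : 𝓞 K) + b * ω = 0) : a = 0 ∧ b = 0 := by
  have h1 : ((2 * a + b) ^ 2 : ℤ) = b ^ 2 * p := by
    have : (((2 * a + b) ^ 2 : ℤ) : 𝓞 K) = ((b ^ 2 * p : ℤ) : 𝓞 K) := by
      push_cast
      rw [hpc]
      push_cast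
      linear_combination (4 * (a : 𝓞 K) - 4 * b * ω + 4 * b) * h + 4 * (b : 𝓞 K) ^ 2 * hω
    exact_mod_cast this
  have hb : b = 0 := by
    by_contra hb
    have hd : b ^ 2 ∣ (2 * a + b) ^ 2 := ⟨p, h1⟩
    rw [Int.pow_dvd_pow_iff two_ne_zero] at hd
    obtain ⟨y, hy⟩ := hd
    rw [hy, mul_pow] at h1
    have h2 : y ^ 2 = p := mul_left_cancel₀ (pow_ne_zero 2 hb) h1
    have hpp : Prime (p : ℤ) := Nat.prime_iff_prime_int.mp hp
    exact hpp.irreducible.not_isSquare ⟨y, by rw [← h2]; ring⟩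
  subst hb
  refine ⟨?_, rfl⟩
  simpa using h

theorem finrank_two (p c : ℕ) (hp : p.Prime) (hpc : p = 4 * c + 1) (ω : 𝓞 K)
    (hω : ω ^ 2 = ω + (c : 𝓞 K)) (hb : ∀ x : 𝓞 K, ∃ a b : ℤ, x = a + b * ω) :
    Module.finrank ℤ (𝓞 K) = 2 := by
  have hsp : ⊤ ≤ Submodule.span ℤ (Set.range ![(1 : 𝓞 K), ω]) := by
    intro x _
    obtain ⟨a, b, rfl⟩ := hb x
    have h1 : (1 : 𝓞 K) ∈ Submodule.span ℤ (Set.range ![(1 : 𝓞 K), ω]) :=
      Submodule.subset_span ⟨0, rfl⟩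
    have h2 : ω ∈ Submodule.span ℤ (Set.range ![(1 : 𝓞 K), ω]) :=
      Submodule.subset_span ⟨1, rfl⟩
    have := Submodule.add_mem _ (Submodule.smul_mem _ a h1) (Submodule.smul_mem _ b h2)
    simpa [zsmul_eq_mul] using this
  have hli : LinearIndependent ℤ ![(1 : 𝓞 K), ω] := by
    rw [LinearIndependent.pair_iff]
    intro s t h
    apply lin_indep p c hp hpc ω hω
    simpa [zsmul_eq_mul] using h
  rw [Module.finrank_eq_card_basis (Module.Basis.mk hli hsp), Fintype.card_fin]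

/-- coordinates of a multiple of `q` -/
theorem dvd_coord (p c : ℕ) (hp : p.Prime) (hpc : p = 4 * c + 1) (ω : 𝓞 K)
    (hω : ω ^ 2 = ω + (c : 𝓞 K)) (hb : ∀ x : 𝓞 K, ∃ a b : ℤ, x = a + b * ω) (q : ℕ) (a b : ℤ)
    (h : (q : 𝓞 K) ∣ (a : 𝓞 K) + b * ω) : (q : ℤ) ∣ a ∧ (q : ℤ) ∣ b := by
  obtain ⟨x, hx⟩ := h
  obtain ⟨u, v, rfl⟩ := hb x
  have := lin_indep p c hp hpc ω hω (a - q * u) (b - q * v) (by
    push_cast
    linear_combination hx)
  exact ⟨⟨u, by linarith [this.1]⟩, ⟨v, by linarith [this.2]⟩⟩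

theorem inert_prime (p c : ℕ) (hp : p.Prime) (hpc : p = 4 * c + 1) (ω : 𝓞 K)
    (hω : ω ^ 2 = ω + (c : 𝓞 K)) (hb : ∀ x : 𝓞 K, ∃ a b : ℤ, x = a + b * ω) (q : ℕ)
    (hq : q.Prime) (hno : ∀ b : ℤ, ¬ (q : ℤ) ∣ b ^ 2 - b - c) :
    Prime (Ideal.span {(q : 𝓞 K)}) := by
  have hq0 : (q : 𝓞 K) ≠ 0 := by exact_mod_cast hq.ne_zero
  have hqp : Prime (q : ℤ) := Nat.prime_iff_prime_int.mp hq
  -- no root also in homogeneous form
  have hno2 : ∀ x y : ℤ, (q : ℤ) ∣ x ^ 2 + x * y - c * y ^ 2 → (q : ℤ) ∣ x ∧ (q : ℤ) ∣ y := by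
    intro x y hxy
    have hy : (q : ℤ) ∣ y := by
      by_contra hy
      have hco : IsCoprime (q : ℤ) y := (Prime.coprime_iff_not_dvd hqp).2 hy
      obtain ⟨s, t, hst⟩ := hco
      apply hno (-(x * t))
      have e : (-(x * t)) ^ 2 - -(x * t) - c
          = t ^ 2 * (x ^ 2 + x * y - c * y ^ 2) + q * (s * (x * t - c * (1 + t * y))) := by
        linear_combination (-(x * t) + c * (1 + t * y)) * hst
      rw [e]
      exact Dvd.dvd.add (Dvd.dvd.mul_left hxy _) (Dvd.intro _ rfl)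
    refine ⟨?_, hy⟩
    have : (q : ℤ) ∣ x ^ 2 := by
      have e : x ^ 2 = (x ^ 2 + x * y - c * y ^ 2) + y * (c * y - x) := by ring
      rw [e]
      exact Dvd.dvd.add hxy (Dvd.dvd.mul_right hy _)
    exact hqp.dvd_of_dvd_pow this
  rw [Ideal.prime_iff_isPrime (by simpa using hq0), Ideal.span_singleton_prime hq0]
  refine ⟨hq0, ?_, ?_⟩
  · intro hu
    have h1 : (q : 𝓞 K) ∣ ((1 : ℤ) : 𝓞 K) + ((0 : ℤ) : 𝓞 K) * ω := by
      rw [Int.cast_one, Int.cast_zero, zero_mul, add_zero]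
      exact hu.dvd
    have := (dvd_coord p c hp hpc ω hω hb q 1 0 h1).1
    exact hqp.not_isUnit (isUnit_of_dvd_one this)
  · intro α β h
    obtain ⟨x, y, rfl⟩ := hb α
    obtain ⟨z, w, rfl⟩ := hb β
    have e : ((x : 𝓞 K) + y * ω) * (z + w * ω)
        = ((x * z + c * y * w : ℤ) : 𝓞 K) + ((x * w + y * z + y * w : ℤ) : 𝓞 K) * ω := by
      push_cast
      linear_combination (y : 𝓞 K) * w * hω
    rw [e] at h
    obtain ⟨⟨u, hu⟩, ⟨v, hv⟩⟩ := dvd_coord p c hp hpc ω hω hb q _ _ h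
    have hN : (x ^ 2 + x * y - c * y ^ 2) * (z ^ 2 + z * w - c * w ^ 2)
        = q * (q * (u ^ 2 + u * v - c * v ^ 2)) := by
      have : (x ^ 2 + x * y - c * y ^ 2) * (z ^ 2 + z * w - c * w ^ 2)
        = (x * z + c * y * w) ^ 2 + (x * z + c * y * w) * (x * w + y * z + y * w)
          - c * (x * w + y * z + y * w) ^ 2 := by ring
      rw [this, hu, hv]
      ring
    rcases hqp.dvd_or_dvd (Dvd.intro _ hN.symm) with h1 | h1
    · left
      obtain ⟨⟨s, hs⟩, ⟨t, ht⟩⟩ := hno2 x y h1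
      exact ⟨s + t * ω, by rw [hs, ht]; push_cast; ring⟩
    · right
      obtain ⟨⟨s, hs⟩, ⟨t, ht⟩⟩ := hno2 z w h1
      exact ⟨s + t * ω, by rw [hs, ht]; push_cast; ring⟩

theorem ram_ideal (p c : ℕ) (hpc : p = 4 * c + 1) (ω : 𝓞 K)
    (hω : ω ^ 2 = ω + (c : 𝓞 K)) (hfin : Module.finrank ℤ (𝓞 K) = 2) :
    ∃ P : Ideal (𝓞 K), Ideal.absNorm P = p ∧ P * P = Ideal.span {(p : 𝓞 K)} := by
  have h1 : Ideal.span {2 * ω - 1} * Ideal.span {2 * ω - 1} = Ideal.span {(p : 𝓞 K)} := by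
    rw [Ideal.span_singleton_mul_span_singleton]
    congr 2
    rw [hpc]
    push_cast
    linear_combination 4 * hω
  refine ⟨Ideal.span {2 * ω - 1}, ?_, h1⟩
  have h2 := congrArg Ideal.absNorm h1
  rw [map_mul, absNorm_nat, hfin, ← sq] at h2
  exact Nat.pow_left_injective (two_ne_zero) h2

theorem split_ideal (p c : ℕ) (hp : p.Prime) (hpc : p = 4 * c + 1) (ω : 𝓞 K)
    (hω : ω ^ 2 = ω + (c : 𝓞 K)) (hb : ∀ x : 𝓞 K, ∃ a b : ℤ, x = a + b * ω)
    (hfin : Module.finrank ℤ (𝓞 K) = 2) (q : ℕ)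
    (hq : q.Prime) (hpq : q ≠ p) (b : ℤ) (hroot : (q : ℤ) ∣ b ^ 2 - b - c) :
    ∃ P Q : Ideal (𝓞 K), Ideal.absNorm P = q ∧ Ideal.absNorm Q = q ∧
      P * Q = Ideal.span {(q : 𝓞 K)} ∧ P ≠ Q := by
  have hqp : Prime (q : ℤ) := Nat.prime_iff_prime_int.mp hq
  have hco : IsCoprime (q : ℤ) (1 - 2 * b) := by
    rw [Prime.coprime_iff_not_dvd hqp]
    intro h
    have h2 : (q : ℤ) ∣ p := by
      have e : (p : ℤ) = (1 - 2 * b) * (1 - 2 * b) - 4 * (b ^ 2 - b - c) := by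
        rw [hpc]; push_cast; ring
      rw [e]
      exact Dvd.dvd.sub (Dvd.dvd.mul_right h _) (Dvd.dvd.mul_left hroot _)
    exact hpq ((Nat.prime_dvd_prime_iff_eq hq hp).1 (by exact_mod_cast h2))
  obtain ⟨s, t, hst⟩ := hco
  set P : Ideal (𝓞 K) := Ideal.span {(q : 𝓞 K), ω - b} with hP
  set Q : Ideal (𝓞 K) := Ideal.span {(q : 𝓞 K), 1 - ω - b} with hQ
  have hqP : (q : 𝓞 K) ∈ P := Ideal.subset_span (by simp)
  have hqQ : (q : 𝓞 K) ∈ Q := Ideal.subset_span (by simp)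
  have hwP : ω - b ∈ P := Ideal.subset_span (by simp)
  have hwQ : 1 - ω - b ∈ Q := Ideal.subset_span (by simp)
  have hst' : (s : 𝓞 K) * q + t * (1 - 2 * b) = 1 := by exact_mod_cast congrArg (Int.cast : ℤ → 𝓞 K) hst
  obtain ⟨r, hr⟩ := hroot
  have hr' : (b : 𝓞 K) ^ 2 - b - c = q * r := by
    exact_mod_cast congrArg (Int.cast : ℤ → 𝓞 K) hr
  have hPQ : P * Q = Ideal.span {(q : 𝓞 K)} := by
    apply le_antisymm
    · rw [hP, hQ, Ideal.span_pair_mul_span_pair, Ideal.span_le]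
      rintro x hx
      simp only [Set.mem_insert_iff, Set.mem_singleton_iff] at hx
      rw [SetLike.mem_coe, Ideal.mem_span_singleton]
      rcases hx with rfl | rfl | rfl | rfl
      · exact Dvd.intro _ rfl
      · exact Dvd.intro _ rfl
      · exact Dvd.intro_left _ rfl
      · exact ⟨r, by linear_combination hr' - hω⟩
    · rw [Ideal.span_singleton_le_iff_mem]
      have e : (q : 𝓞 K) = (s : 𝓞 K) * (q * q) + t * (q * (1 - ω - b) + (ω - b) * q) := by
        linear_combination -(q : 𝓞 K) * hst'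
      rw [e]
      refine add_mem (Ideal.mul_mem_left _ _ (Ideal.mul_mem_mul hqP hqQ))
        (Ideal.mul_mem_left _ _ (add_mem (Ideal.mul_mem_mul hqP hwQ) (Ideal.mul_mem_mul hwP hqQ)))
  have hN : Ideal.absNorm P * Ideal.absNorm Q = q ^ 2 := by
    rw [← map_mul, hPQ, absNorm_nat, hfin]
  have hPtop : P ≠ ⊤ := by
    intro h
    rw [h, Ideal.top_mul] at hPQ
    rw [hPQ, Ideal.mem_span_singleton] at hwQ
    have h1 := (dvd_coord p c hp hpc ω hω hb q (1 - b) (-1) (by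
      convert hwQ using 1; push_cast; ring)).2
    exact hqp.not_isUnit (isUnit_of_dvd_unit h1 (by simp))
  have hQtop : Q ≠ ⊤ := by
    intro h
    rw [h, Ideal.mul_top] at hPQ
    rw [hPQ, Ideal.mem_span_singleton] at hwP
    have h1 := (dvd_coord p c hp hpc ω hω hb q (-b) 1 (by
      convert hwP using 1; push_cast; ring)).2
    exact hqp.not_isUnit (isUnit_of_dvd_one h1)
  have h1 : Ideal.absNorm P ≠ 1 := fun h => hPtop (Ideal.absNorm_eq_one_iff.1 h)
  have h2 : Ideal.absNorm Q ≠ 1 := fun h => hQtop (Ideal.absNorm_eq_one_iff.1 h)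
  have h3 : Ideal.absNorm P = q ∧ Ideal.absNorm Q = q := by
    have hd : Ideal.absNorm P ∣ q ^ 2 := hN ▸ Dvd.intro _ rfl
    obtain ⟨i, hi, hi'⟩ := (Nat.dvd_prime_pow hq).1 hd
    have hd2 : Ideal.absNorm Q ∣ q ^ 2 := hN ▸ Dvd.intro_left _ rfl
    obtain ⟨j, hj, hj'⟩ := (Nat.dvd_prime_pow hq).1 hd2
    have hi0 : i ≠ 0 := by rintro rfl; exact h1 (by rw [hi', pow_zero])
    have hj0 : j ≠ 0 := by rintro rfl; exact h2 (by rw [hj', pow_zero])
    rw [hi', hj', ← pow_add] at hN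
    have := Nat.pow_right_injective hq.two_le hN
    have hi1 : i = 1 := by omega
    have hj1 : j = 1 := by omega
    rw [hi', hj', hi1, hj1, pow_one]
    exact ⟨rfl, rfl⟩
  refine ⟨P, Q, h3.1, h3.2, hPQ, ?_⟩
  intro h
  apply hPtop
  rw [Ideal.eq_top_iff_one, ← hst']
  rw [← h] at hwQ
  refine add_mem (Ideal.mul_mem_left _ _ hqP) (Ideal.mul_mem_left _ _ ?_)
  have := add_mem hwP hwQ
  convert this using 1
  ring

/-! ### The splitting law -/

theorem root_iff (p c q : ℕ) [Fact p.Prime] (hpc : p = 4 * c + 1) (hq : q.Prime) (hpq : q ≠ p) :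
    (legendreSym p q = 1 ∧ ∃ b : ℤ, (q : ℤ) ∣ b ^ 2 - b - c) ∨
    (legendreSym p q = -1 ∧ ∀ b : ℤ, ¬ (q : ℤ) ∣ b ^ 2 - b - c) := by
  have hpp : p.Prime := Fact.out
  rcases eq_or_ne q 2 with rfl | hq2
  · have h2 : legendreSym p (2 : ℕ) = ZMod.χ₈ p := by
      have := legendreSym.at_two (p := p) hpq.symm
      exact_mod_cast this
    rw [h2, ZMod.χ₈_nat_eq_if_mod_eight]
    rcases Nat.even_or_odd c with hc | hc
    · left
      refine ⟨?_, 0, ?_⟩
      · obtain ⟨d, hd⟩ := hc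
        have : p % 8 = 1 := by omega
        have h3 : p % 2 = 1 := by omega
        simp [this, h3]
      · obtain ⟨d, hd⟩ := hc
        exact ⟨-d, by rw [hd]; push_cast; ring⟩
    · right
      refine ⟨?_, ?_⟩
      · obtain ⟨d, hd⟩ := hc
        have : p % 8 = 5 := by omega
        have h3 : p % 2 = 1 := by omega
        simp [this, h3]
      · obtain ⟨d, hd⟩ := hc
        rintro b ⟨r, hr⟩
        have h4 : Even (b * (b - 1)) := Int.even_mul_pred_self b
        obtain ⟨e, he⟩ := h4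
        rw [hd] at hr
        push_cast at hr
        have : b * (b - 1) = b ^ 2 - b := by ring
        omega
  · have : Fact q.Prime := ⟨hq⟩
    have h4 : p % 4 = 1 := by omega
    have hqr := legendreSym.quadratic_reciprocity_one_mod_four (p := p) (q := q) h4 hq2
    have hp0 : ((p : ℤ) : ZMod q) ≠ 0 := by
      intro h
      rw [Int.cast_natCast, ZMod.natCast_eq_zero_iff] at h
      exact hpq ((Nat.prime_dvd_prime_iff_eq hq hpp).1 h)
    have h2q : (2 : ZMod q) ≠ 0 := by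
      intro h
      have : ((2 : ℕ) : ZMod q) = 0 := by exact_mod_cast h
      rw [ZMod.natCast_eq_zero_iff] at this
      exact hq2 ((Nat.prime_dvd_prime_iff_eq hq Nat.prime_two).1 this)
    have key : (∃ b : ℤ, (q : ℤ) ∣ b ^ 2 - b - c) ↔ IsSquare ((p : ℤ) : ZMod q) := by
      constructor
      · rintro ⟨b, hb⟩
        refine ⟨((2 * b - 1 : ℤ) : ZMod q), ?_⟩
        have h5 : ((b ^ 2 - b - c : ℤ) : ZMod q) = 0 := (ZMod.intCast_zmod_eq_zero_iff_dvd _ _).2 hb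
        rw [hpc]
        push_cast at h5 ⊢
        linear_combination -4 * h5
      · rintro ⟨x, hx⟩
        obtain ⟨b, hb⟩ := ZMod.intCast_surjective ((x + 1) / 2)
        refine ⟨b, ?_⟩
        rw [← ZMod.intCast_zmod_eq_zero_iff_dvd]
        push_cast
        rw [hb]
        rw [hpc] at hx
        push_cast at hx
        have h4q : (4 : ZMod q) ≠ 0 := by
          have : (4 : ZMod q) = 2 * 2 := by norm_num
          rw [this]
          exact mul_ne_zero h2q h2q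
        field_simp
        linear_combination -hx
    rcases legendreSym.eq_one_or_neg_one (p := q) (a := (p : ℤ)) hp0 with h | h
    · left
      refine ⟨by rw [← hqr]; exact h, key.2 ?_⟩
      exact (legendreSym.eq_one_iff q hp0).1 h
    · right
      refine ⟨by rw [← hqr]; exact h, ?_⟩
      intro b hb
      have := key.1 ⟨b, hb⟩
      exact (legendreSym.eq_neg_one_iff q).1 h this

/-! ### Assembly -/

/-- the arithmetic function `n ↦ (n / p)` -/
noncomputable def chi (p : ℕ) [Fact p.Prime] : ArithmeticFunction ℤ :=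
  ⟨fun n => legendreSym p n, by simp⟩

theorem chi_mult (p : ℕ) [Fact p.Prime] : (chi p).IsMultiplicative := by
  refine ⟨?_, ?_⟩
  · change legendreSym p ((1 : ℕ) : ℤ) = 1
    simp
  · intro m n _
    change legendreSym p ((m * n : ℕ) : ℤ) = legendreSym p (m : ℤ) * legendreSym p (n : ℤ)
    push_cast
    exact legendreSym.mul p m n

theorem sum_mul (p : ℕ) [Fact p.Prime] (m n : ℕ) (h : Nat.Coprime m n) :
    ∑ d ∈ (m * n).divisors, legendreSym p d =
      (∑ d ∈ m.divisors, legendreSym p d) * ∑ d ∈ n.divisors, legendreSym p d := by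
  have key : ∀ k : ℕ, ∑ d ∈ k.divisors, legendreSym p d =
      (chi p * ((ArithmeticFunction.zeta : ArithmeticFunction ℕ) : ArithmeticFunction ℤ)) k := by
    intro k
    rw [ArithmeticFunction.coe_mul_zeta_apply]
    rfl
  rw [key, key, key]
  exact ((chi_mult p).mul ArithmeticFunction.isMultiplicative_zeta.natCast).map_mul_of_coprime h

theorem card_prime_pow (p c : ℕ) [Fact p.Prime] (hpc : p = 4 * c + 1)
    (ω : 𝓞 K) (hω : ω ^ 2 = ω + (c : 𝓞 K))
    (hb : ∀ x : 𝓞 K, ∃ a b : ℤ, x = a + b * ω) (q : ℕ) (hq : q.Prime) (k : ℕ) :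
    (Nat.card {I : Ideal (𝓞 K) // Ideal.absNorm I = q ^ k} : ℤ) =
      ∑ d ∈ (q ^ k).divisors, legendreSym p d := by
  have hpp : p.Prime := Fact.out
  have hfin := finrank_two p c hpp hpc ω hω hb
  rw [Nat.sum_divisors_prime_pow hq]
  have hpow : ∀ i : ℕ, legendreSym p ((q ^ i : ℕ) : ℤ) = legendreSym p q ^ i := by
    intro i
    induction i with
    | zero => simp
    | succ i ih =>
      rw [pow_succ, pow_succ, Nat.cast_mul, legendreSym.mul, ih]
  simp only [hpow]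
  rcases eq_or_ne q p with rfl | hqp
  · obtain ⟨P, hP, hPP⟩ := ram_ideal q c hpc ω hω hfin
    rw [card_ram q hq P hP hPP k]
    have h0 : legendreSym q q = 0 := by
      rw [legendreSym.eq_zero_iff]; simp
    rw [h0]
    simp [Finset.sum_range_succ']
  · rcases root_iff p c q hpc hq hqp with ⟨h1, b, hb'⟩ | ⟨h1, hno⟩
    · obtain ⟨P, Q, hP, hQ, hPQ, hne⟩ := split_ideal p c hpp hpc ω hω hb hfin q hq hqp b hb'
      rw [card_split q hq P Q hP hQ hPQ hne k, h1]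
      simp
    · rw [card_inert q hq (inert_prime p c hpp hpc ω hω hb q hq hno) hfin k, h1]
      rw [neg_one_geom_sum]
      by_cases hk : Even k
      · have : ¬ Even (k + 1) := by rw [Nat.even_add_one]; simpa using hk
        simp [hk, this]
      · have : Even (k + 1) := by rw [Nat.even_add_one]; exact hk
        simp [hk, this]

end Pool.Agent.H29.LD.B

namespace Pool.Agent.H29.LD

open B in
/-- MODULE B: number of ideals of norm `n`. -/
theorem card_ideal_eq (p : ℕ) [Fact p.Prime] (hp : p % 4 = 1) (K : Type) [Field K] [NumberField K]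
    (ω : 𝓞 K) (hω : ω ^ 2 = ω + (((p - 1) / 4 : ℕ) : 𝓞 K))
    (hb : ∀ x : 𝓞 K, ∃ a b : ℤ, x = a + b * ω) (n : ℕ) (hn : n ≠ 0) :
    (Nat.card {I : Ideal (𝓞 K) // Ideal.absNorm I = n} : ℤ) =
      ∑ d ∈ n.divisors, legendreSym p d := by
  have hpc : p = 4 * ((p - 1) / 4) + 1 := by omega
  induction n using Nat.recOnPosPrimePosCoprime with
  | prime_pow q k hq hk => exact card_prime_pow p _ hpc ω hω hb q hq k
  | zero => exact absurd rfl hn
  | one => simp
  | coprime a b ha hb' hab iha ihb =>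
    rw [sum_mul p a b hab, ← iha (by omega), ← ihb (by omega), card_mul a b hab (by omega) (by omega)]
    push_cast
    rfl

end Pool.Agent.H29.LD
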