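import Mathlib

set_option autoImplicit false

open NumberField Filter Topology

namespace Pool.Agent.H29.LD

variable {p : ℕ} {K : Type} [Field K] [NumberField K]

omit [NumberField K] in
theorem theta_sq (σ : K →+* ℝ) (θ : K) (hθ : σ θ = √p) : θ ^ 2 = p := by
  apply σ.injective
  rw [map_pow, hθ, Real.sq_sqrt (by positivity), map_natCast]

theorem irr (hp : p.Prime) (σ : K →+* ℝ) (θ : K) (hθ : σ θ = √p) (a b : ℚ)
    (h : (a : K) + b * θ = 0) : a = 0 ∧ b = 0 := by
  have h1 : (a : ℝ) + b * √p = 0 := by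
    have := congrArg σ h
    simpa [hθ] using this
  have hirr : Irrational √(p : ℝ) := hp.irrational_sqrt
  by_cases hb : b = 0
  · subst hb
    simp at h1
    exact ⟨h1, rfl⟩
  · exfalso
    apply hirr
    refine ⟨-a / b, ?_⟩
    have hb' : (b : ℝ) ≠ 0 := by exact_mod_cast hb
    push_cast
    field_simp
    linarith

theorem finrank_eq (hp : p.Prime) (σ : K →+* ℝ) (θ : K) (hθ : σ θ = √p)
    (hK : ∀ x : K, ∃ a b : ℚ, x = a + b * θ) : Module.finrank ℚ K = 2 := by
  have hli : LinearIndependent ℚ ![(1 : K), θ] := by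
    rw [LinearIndependent.pair_iff]
    intro s t h
    apply irr hp σ θ hθ
    simpa [Algebra.smul_def] using h
  have hsp : ⊤ ≤ Submodule.span ℚ (Set.range ![(1 : K), θ]) := by
    intro x _
    obtain ⟨a, b, rfl⟩ := hK x
    have h1 : (1 : K) ∈ Submodule.span ℚ (Set.range ![(1 : K), θ]) :=
      Submodule.subset_span ⟨0, rfl⟩
    have h2 : θ ∈ Submodule.span ℚ (Set.range ![(1 : K), θ]) :=
      Submodule.subset_span ⟨1, rfl⟩
    have := Submodule.add_mem _ (Submodule.smul_mem _ a h1) (Submodule.smul_mem _ b h2)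
    simpa [Algebra.smul_def] using this
  have := Module.finrank_eq_card_basis (Module.Basis.mk hli hsp)
  simpa using this

theorem totallyReal (θ : K) (hθ : θ ^ 2 = p)
    (hK : ∀ x : K, ∃ a b : ℚ, x = a + b * θ) : IsTotallyReal K := by
  constructor
  intro v
  rw [← InfinitePlace.mk_embedding v, InfinitePlace.isReal_mk_iff]
  set φ := v.embedding
  rw [ComplexEmbedding.isReal_iff]
  have h1 : φ θ = (√p : ℝ) ∨ φ θ = -(√p : ℝ) := by
    have h2 : (φ θ) ^ 2 = ((√p : ℝ) : ℂ) ^ 2 := by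
      rw [← map_pow, hθ, map_natCast, ← Complex.ofReal_pow, Real.sq_sqrt (by positivity)]
      simp
    exact sq_eq_sq_iff_eq_or_eq_neg.mp h2
  ext x
  obtain ⟨a, b, rfl⟩ := hK x
  simp only [ComplexEmbedding.conjugate_coe_eq, map_add, map_mul, map_ratCast]
  rcases h1 with h | h <;> rw [h] <;> simp

/-- torsion units are `±1` -/
theorem torsion_pm (σ : K →+* ℝ) (ζ : (𝓞 K)ˣ) (hζ : ζ ∈ Units.torsion K) : ζ = 1 ∨ ζ = -1 := by
  rw [Units.torsion, CommGroup.mem_torsion, isOfFinOrder_iff_pow_eq_one] at hζ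
  obtain ⟨n, hn, h⟩ := hζ
  have h1 : (σ (ζ : K)) ^ n = 1 := by
    rw [← map_pow, ← Units.coe_pow, h, Units.coe_one, map_one]
  have h2 : |σ (ζ : K)| = 1 := by
    have h3 : |σ (ζ : K)| ^ n = 1 := by rw [← abs_pow, h1, abs_one]
    exact (pow_eq_one_iff_of_nonneg (abs_nonneg _) hn.ne').mp h3
  rcases eq_or_eq_neg_of_abs_eq h2 with h3 | h3
  · left
    apply Units.coe_injective K
    apply σ.injective
    change σ (ζ : K) = σ ((1 : (𝓞 K)ˣ) : K)
    rw [h3, Units.coe_one, map_one]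
  · right
    apply Units.coe_injective K
    apply σ.injective
    change σ (ζ : K) = σ ((-1 : (𝓞 K)ˣ) : K)
    rw [h3, Units.coe_neg_one]
    simp

theorem torsionOrder_eq (σ : K →+* ℝ) : Units.torsionOrder K = 2 := by
  have h1 : Units.torsionOrder K ≤ 2 := by
    have hle : Nat.card (Units.torsion K) ≤ Nat.card ({1, -1} : Set (𝓞 K)ˣ) := by
      have : Finite ({1, -1} : Set (𝓞 K)ˣ) := Set.toFinite _
      apply Nat.card_le_card_of_injective (fun x : Units.torsion K =>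
        (⟨x.1, by
          rcases torsion_pm σ x.1 x.2 with h | h
          · rw [h]; simp
          · rw [h]; simp⟩ : ({1, -1} : Set (𝓞 K)ˣ)))
      intro x y h
      exact Subtype.ext (congrArg (fun z => z.1) h)
    refine hle.trans ?_
    rw [Nat.card_coe_set_eq]
    exact (Set.ncard_insert_le _ _).trans (by simp)
  have h2 := Units.even_torsionOrder K
  have h3 := Units.torsionOrder_pos K
  obtain ⟨m, hm⟩ := h2
  omega

theorem rank_eq (hfin : Module.finrank ℚ K = 2) [IsTotallyReal K] : Units.rank K = 1 := by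
  rw [Units.rank, InfinitePlace.card_eq_nrRealPlaces_add_nrComplexPlaces,
    IsTotallyReal.nrComplexPlaces_eq_zero, ← IsTotallyReal.finrank K, hfin]

/-- There is a unit generating the unit group up to sign whose logarithm is the regulator. -/
theorem exists_fund (σ : K →+* ℝ) (hfin : Module.finrank ℚ K = 2) [IsTotallyReal K] :
    ∃ u : (𝓞 K)ˣ, Units.regulator K = |Real.log (|σ (u : K)|)| ∧
      ∀ x : (𝓞 K)ˣ, ∃ k : ℤ, x = u ^ k ∨ x = -u ^ k := by
  classical
  have hrank := rank_eq hfin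
  have hcard : Fintype.card (InfinitePlace K) = 2 := by
    rw [InfinitePlace.card_eq_nrRealPlaces_add_nrComplexPlaces,
      IsTotallyReal.nrComplexPlaces_eq_zero, ← IsTotallyReal.finrank K, hfin]
  let w₁ : InfinitePlace K := InfinitePlace.mk (Complex.ofRealHom.comp σ)
  have hnt : Nontrivial (InfinitePlace K) := by
    rw [← Fintype.one_lt_card_iff_nontrivial, hcard]; norm_num
  obtain ⟨w', hw'⟩ := exists_ne w₁
  have huniq : Unique {w : InfinitePlace K // w ≠ w'} := by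
    refine ⟨⟨⟨w₁, hw'.symm⟩⟩, ?_⟩
    have hc : Fintype.card {w : InfinitePlace K // w ≠ w'} = 1 := by
      rw [Fintype.card_subtype_compl, Fintype.card_subtype_eq, hcard]
    have := Fintype.card_le_one_iff_subsingleton.mp hc.le
    intro a
    exact Subsingleton.elim _ _
  have huf : Unique (Fin (Units.rank K)) := by rw [hrank]; infer_instance
  let e : {w : InfinitePlace K // w ≠ w'} ≃ Fin (Units.rank K) := Equiv.ofUnique _ _
  refine ⟨Units.fundSystem K (e default), ?_, ?_⟩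
  · rw [Units.regulator_eq_det K w' e, Matrix.det_unique, Matrix.of_apply]
    have hd : (default : {w : InfinitePlace K // w ≠ w'}).val = w₁ := by
      have := huniq.uniq ⟨w₁, hw'.symm⟩
      rw [← this]
    rw [hd, IsTotallyReal.mult_eq, Nat.cast_one, one_mul]
    congr 2
    change ‖((σ _ : ℝ) : ℂ)‖ = _
    rw [Complex.norm_real, Real.norm_eq_abs]
  · intro x
    obtain ⟨⟨ζ, f⟩, h, -⟩ := Units.exist_unique_eq_mul_prod K x
    refine ⟨f (e default), ?_⟩
    have hpr : ∏ i, (Units.fundSystem K i) ^ (f i) = (Units.fundSystem K (e default)) ^ f (e default) := by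
      rw [Fintype.prod_unique]
      have : (default : Fin (Units.rank K)) = e default := Subsingleton.elim _ _
      rw [this]
    simp only at h
    rw [hpr] at h
    rcases torsion_pm σ ζ.1 ζ.2 with h1 | h1
    · left; rw [h, h1, one_mul]
    · right; rw [h, h1, neg_one_mul]

theorem exists_least (σ : K →+* ℝ) (hfin : Module.finrank ℚ K = 2) [IsTotallyReal K] :
    ∃ ε : ℝ, IsLeast {x : ℝ | 1 < x ∧ ∃ u : (𝓞 K)ˣ, σ (u : K) = x} ε ∧
      Units.regulator K = Real.log ε := by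
  obtain ⟨u, hu, hgen⟩ := exists_fund σ hfin
  have hR := Units.regulator_pos K
  have hu0 : σ (u : K) ≠ 0 := by
    rw [Ne, map_eq_zero]; exact Units.coe_ne_zero u
  have hpos : 0 < |σ (u : K)| := abs_pos.mpr hu0
  refine ⟨Real.exp (Units.regulator K), ⟨⟨Real.one_lt_exp_iff.mpr hR, ?_⟩, ?_⟩, by rw [Real.log_exp]⟩
  · -- attained
    have key : ∃ v : (𝓞 K)ˣ, |σ (v : K)| = Real.exp (Units.regulator K) := by
      rw [hu]
      rcases abs_choice (Real.log |σ (u : K)|) with h | h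
      · refine ⟨u, ?_⟩
        rw [h, Real.exp_log hpos]
      · refine ⟨u⁻¹, ?_⟩
        rw [h, Real.exp_neg, Real.exp_log hpos]
        have h1 : ((u⁻¹ : (𝓞 K)ˣ) : K) = (u : K)⁻¹ := by
          simp
        rw [h1, map_inv₀, abs_inv]
    obtain ⟨v, hv⟩ := key
    rcases abs_choice (σ (v : K)) with h | h
    · exact ⟨v, by rw [← h, hv]⟩
    · refine ⟨-v, ?_⟩
      have h1 : ((-v : (𝓞 K)ˣ) : K) = -(v : K) := by
        simp
      rw [h1, map_neg, ← h, hv]
  · rintro x ⟨hx, v, rfl⟩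
    obtain ⟨k, hk⟩ := hgen v
    have hab : |σ (v : K)| = |σ (u : K)| ^ k := by
      rcases hk with h | h
      · rw [h, Units.coe_zpow, map_zpow₀, abs_zpow]
      · have h1 : ((-u ^ k : (𝓞 K)ˣ) : K) = -((u ^ k : (𝓞 K)ˣ) : K) := by simp
        rw [h, h1, Units.coe_zpow, map_neg, map_zpow₀, abs_neg, abs_zpow]
    have hvpos : 0 < σ (v : K) := lt_trans one_pos hx
    rw [abs_of_pos hvpos] at hab
    have hlog : Real.log (σ (v : K)) = k * Real.log |σ (u : K)| := by
      rw [hab, Real.log_zpow]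
    have hlogpos : 0 < Real.log (σ (v : K)) := Real.log_pos hx
    have hk0 : k ≠ 0 := by
      rintro rfl
      rw [hlog] at hlogpos
      simp at hlogpos
    have h1k : (1 : ℝ) ≤ |(k : ℝ)| := by
      have : (1 : ℤ) ≤ |k| := Int.one_le_abs hk0
      exact_mod_cast this
    rw [← Real.exp_log hvpos, Real.exp_le_exp, hu]
    calc |Real.log (|σ (u : K)|)| ≤ |(k : ℝ)| * |Real.log (|σ (u : K)|)| :=
          le_mul_of_one_le_left (abs_nonneg _) h1k
      _ = |Real.log (σ (v : K))| := by rw [hlog, abs_mul]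
      _ = Real.log (σ (v : K)) := abs_of_pos hlogpos

/-- the discriminant of `K` from an integral basis `1, ω` -/
theorem discr_eq (n : ℤ) (ω : 𝓞 K) (hω : ω ^ 2 = ω + (n : 𝓞 K))
    (hirr : ∀ c d : ℤ, (c : 𝓞 K) + d * ω = 0 → c = 0 ∧ d = 0)
    (hb : ∀ x : 𝓞 K, ∃ a b : ℤ, x = a + b * ω) : discr K = 4 * n + 1 := by
  classical
  have hsp : ⊤ ≤ Submodule.span ℤ (Set.range ![(1 : 𝓞 K), ω]) := by
    intro x _
    obtain ⟨a, b, rfl⟩ := hb x
    have h1 : (1 : 𝓞 K) ∈ Submodule.span ℤ (Set.range ![(1 : 𝓞 K), ω]) :=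
      Submodule.subset_span ⟨0, rfl⟩
    have h2 : ω ∈ Submodule.span ℤ (Set.range ![(1 : 𝓞 K), ω]) :=
      Submodule.subset_span ⟨1, rfl⟩
    have := Submodule.add_mem _ (Submodule.smul_mem _ a h1) (Submodule.smul_mem _ b h2)
    simpa [zsmul_eq_mul] using this
  have hli : LinearIndependent ℤ ![(1 : 𝓞 K), ω] := by
    rw [LinearIndependent.pair_iff]
    intro s t h
    apply hirr
    simpa [zsmul_eq_mul] using h
  let b : Module.Basis (Fin 2) ℤ (𝓞 K) := Module.Basis.mk hli hsp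
  have hb0 : b 0 = 1 := by simp [b]
  have hb1 : b 1 = ω := by simp [b]
  have hrepr : ∀ c d : ℤ, ∀ i : Fin 2, b.repr ((c : 𝓞 K) + d * ω) i = ![c, d] i := by
    intro c d i
    have : ((c : 𝓞 K) + d * ω) = ∑ j, (![c, d] j) • b j := by
      rw [Fin.sum_univ_two, hb0, hb1]
      simp
    rw [this, Module.Basis.repr_sum_self]
  have htr : ∀ c d : ℤ, Algebra.trace ℤ (𝓞 K) ((c : 𝓞 K) + d * ω) = 2 * c + d := by
    intro c d
    rw [Algebra.trace_eq_matrix_trace b, Matrix.trace_fin_two, Algebra.leftMulMatrix_eq_repr_mul,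
      Algebra.leftMulMatrix_eq_repr_mul, hb0, hb1, mul_one, hrepr]
    have : ((c : 𝓞 K) + d * ω) * ω = ((d * n : ℤ) : 𝓞 K) + ((c + d : ℤ) : 𝓞 K) * ω := by
      push_cast
      linear_combination (d : 𝓞 K) * hω
    rw [this, hrepr]
    simp
    ring
  rw [← discr_eq_discr K b, Algebra.discr_def, Matrix.det_fin_two]
  simp only [Algebra.traceMatrix_apply, Algebra.traceForm_apply, hb0, hb1]
  have e0 : (1 : 𝓞 K) * 1 = ((1 : ℤ) : 𝓞 K) + ((0 : ℤ) : 𝓞 K) * ω := by simp
  have e1 : (1 : 𝓞 K) * ω = ((0 : ℤ) : 𝓞 K) + ((1 : ℤ) : 𝓞 K) * ω := by simp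
  have e2 : ω * 1 = ((0 : ℤ) : 𝓞 K) + ((1 : ℤ) : 𝓞 K) * ω := by simp
  have e3 : ω * ω = ((n : ℤ) : 𝓞 K) + ((1 : ℤ) : 𝓞 K) * ω := by
    push_cast
    linear_combination hω
  rw [e0, e1, e2, e3, htr, htr, htr]
  ring

/-- MODULE A2, with the integral basis of module A1 as a hypothesis. -/
theorem exists_unit_residue_of (p : ℕ) [Fact p.Prime] (hp : p % 4 = 1) (K : Type) [Field K]
    [NumberField K] (σ : K →+* ℝ) (θ : K) (hθ : σ θ = √p)
    (hK : ∀ x : K, ∃ a b : ℚ, x = a + b * θ)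
    (ω : 𝓞 K) (h2 : 2 * (ω : K) = 1 + θ) (hω : ω ^ 2 = ω + (((p - 1) / 4 : ℕ) : 𝓞 K))
    (hb : ∀ x : 𝓞 K, ∃ a b : ℤ, x = a + b * ω) :
    ∃ ε : ℝ, IsLeast {x : ℝ | 1 < x ∧ ∃ u : (𝓞 K)ˣ, σ (u : K) = x} ε ∧
      dedekindZeta_residue K = 2 * classNumber K * Real.log ε / √p := by
  have hpp : p.Prime := Fact.out
  have hfin := finrank_eq hpp σ θ hθ hK
  have hreal : IsTotallyReal K := totallyReal θ (theta_sq σ θ hθ) hK
  obtain ⟨ε, hε, hreg⟩ := exists_least σ hfin
  refine ⟨ε, hε, ?_⟩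
  have hirr : ∀ c d : ℤ, (c : 𝓞 K) + d * ω = 0 → c = 0 ∧ d = 0 := by
    intro c d h
    have h1 : (c : K) + d * (ω : K) = 0 := by
      have := congrArg (algebraMap (𝓞 K) K) h
      simpa using this
    have h3 : ((2 * c + d : ℤ) : K) + (d : K) * θ = 0 := by
      push_cast
      linear_combination 2 * h1 - (d : K) * h2
    have h4 := irr hpp σ θ hθ ((2 * c + d : ℤ) : ℚ) (d : ℚ) (by push_cast at h3 ⊢; exact h3)
    have h5 : d = 0 := by exact_mod_cast h4.2
    have h6 : 2 * c + d = 0 := by exact_mod_cast h4.1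
    omega
  have hdiscr : discr K = (p : ℤ) := by
    rw [discr_eq (((p - 1) / 4 : ℕ) : ℤ) ω (by rw [hω, Int.cast_natCast]) hirr hb]
    have := hpp.one_lt
    omega
  rw [dedekindZeta_residue_def, ← IsTotallyReal.finrank K, hfin,
    IsTotallyReal.nrComplexPlaces_eq_zero, torsionOrder_eq σ, hdiscr, hreg]
  have hp0 : (0 : ℝ) < √p := Real.sqrt_pos.mpr (by exact_mod_cast hpp.pos)
  have habs : √|((p : ℤ) : ℝ)| = √p := by
    rw [Int.cast_natCast, abs_of_nonneg (by positivity)]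
  rw [habs]
  push_cast
  field_simp

end Pool.Agent.H29.LD
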